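import Pool.Agent.Q122.MB.Stm
import Pool.Agent.Q122.FM.All

set_option autoImplicit false

/-! Project MB (helper122), job J1B (helper40), after job J1 of project FM (helper153). -/

namespace Pool.Agent.Q40.MB

open Finset Filter Topology MeasureTheory Pool.Agent.H306R2.RZ Pool.Agent.H306R2.RG
open Pool.Agent.Q122.FM Pool.Agent.Q122.MB Pool.Agent.Q153.FM

noncomputable section

theorem log_ge_one {Y : ℕ} (hY : 3 ≤ Y) : 1 ≤ Real.log Y := by
  have hY3 : (3 : ℝ) ≤ Y := by exact_mod_cast hY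
  have h3 : Real.log 3 ≤ Real.log Y := Real.log_le_log (by norm_num) hY3
  have h4 : 1 ≤ Real.log 3 := by
    rw [Real.le_log_iff_exp_le (by norm_num)]
    have := Real.exp_one_lt_d9
    linarith
  linarith

/-- the logarithm of `9 Y B²` -/
theorem log_nine {Y B : ℕ} (hY : 3 ≤ Y) (hB : 1 ≤ B) (hBY : B ≤ Y) {t : ℝ} (ht : 0 < t)
    (h : t ≤ 9 * Y * (B : ℝ) ^ 2) : Real.log t ≤ 5 * Real.log Y := by
  have hY3 : (3 : ℝ) ≤ Y := by exact_mod_cast hY
  have hY0 : (0 : ℝ) < Y := by linarith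
  have hB1 : (1 : ℝ) ≤ B := by exact_mod_cast hB
  have hBY' : (B : ℝ) ≤ Y := by exact_mod_cast hBY
  have h1 : t ≤ (Y : ℝ) ^ 5 := by
    refine h.trans ?_
    have h2 : (B : ℝ) ^ 2 ≤ (Y : ℝ) ^ 2 := pow_le_pow_left₀ (by linarith) hBY' 2
    have h3 : (9 : ℝ) ≤ (Y : ℝ) ^ 2 := by nlinarith
    calc 9 * (Y : ℝ) * (B : ℝ) ^ 2 ≤ (Y : ℝ) ^ 2 * Y * (Y : ℝ) ^ 2 := by gcongr
      _ = (Y : ℝ) ^ 5 := by ring
  refine (Real.log_le_log ht h1).trans (le_of_eq ?_)
  rw [Real.log_pow]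
  norm_num

theorem J1B_aux (ls1 : S_LS1) (kbi : S_KBI) : S_J1B := by
  obtain ⟨C1, hC1, h1⟩ := ls1
  obtain ⟨⟨C0, hC0, k0⟩, k1⟩ := kbi
  have hC00 : 0 < C0 := by linarith
  refine ⟨C0 * Real.sqrt C1 * 3 * 19, by positivity,
    fun a ha e he β hβ B hB hβB c hc8 hco q hq Y h N hY hh hBY => ?_⟩
  have hY3 : (3 : ℝ) ≤ Y := by exact_mod_cast hY
  have hY0 : (0 : ℝ) < Y := by linarith
  have hq0 : 0 < q := Nat.pos_of_ne_zero (by rintro rfl; exact absurd hq (by decide))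
  have hq0' : (0 : ℝ) < q := by exact_mod_cast hq0
  have hq1' : (1 : ℝ) ≤ q := by exact_mod_cast hq0
  have hh0 : (0 : ℝ) ≤ h := Nat.cast_nonneg h
  have hB1 : (1 : ℝ) ≤ B := by exact_mod_cast hB
  have hB0 : (0 : ℝ) < B := by linarith
  have hlog3 : 1 ≤ Real.log Y := log_ge_one hY
  set D : ℕ → Finset ℕ := fun y => (Ioc y (y + h)).filter (fun d => q ^ 2 ∣ d ∧ d % 8 = c) with hD
  set S : ℕ → ℝ → ℝ := fun y w => ∑ d ∈ D y, N1 e (KB a β B N w) (N * B) d with hS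
  set z0 : ℝ := 1 / (8 * Y) / (B : ℝ) ^ 2 with hz0
  have hz0p : 0 < z0 := by positivity
  have e1 : 1 / z0 = 8 * Y * (B : ℝ) ^ 2 := by
    rw [hz0]
    field_simp
  have hz01 : z0 ≤ 1 := by
    rw [← one_div_one_div z0, e1]
    refine (div_le_one (by positivity)).2 ?_
    have : (1 : ℝ) ≤ (B : ℝ) ^ 2 := one_le_pow₀ hB1
    nlinarith
  have fI : ∀ y, IntegrableOn (fun w : ℝ => w ^ (-(3 / 4) : ℝ) * S y w) (Set.Ioi z0) := by
    intro y
    simp only [hS, Finset.mul_sum]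
    exact integrable_finsetSum _ fun d _ => (k1 a ha e β B N d (1 / (8 * Y)) hB (by positivity)).1
  have fE : ∀ z : ℝ, 0 < z → ∀ y, ∑ d ∈ D y, EBN e a β B N d z =
      Real.sqrt B * ∫ w in Set.Ioi (z / (B : ℝ) ^ 2), w ^ (-(3 / 4) : ℝ) * S y w := by
    intro z hz y
    simp only [hS, Finset.mul_sum]
    rw [integral_finsetSum _ fun d _ => (k1 a ha e β B N d z hB hz).1, Finset.mul_sum]
    exact Finset.sum_congr rfl fun d _ => (k1 a ha e β B N d z hB hz).2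
  have habs : ∀ y, IntegrableOn (fun w : ℝ => w ^ (-(3 / 4) : ℝ) * |S y w|) (Set.Ioi z0) := by
    intro y
    refine (fI y).abs.congr ?_
    rw [EventuallyEq, ae_restrict_iff' measurableSet_Ioi]
    refine Eventually.of_forall fun w hw => ?_
    have hw0 : (0 : ℝ) < w := lt_trans hz0p hw
    rw [abs_mul, abs_of_nonneg (Real.rpow_nonneg hw0.le _)]
  -- step A
  have hA : ∀ y ∈ range Y, |∑ d ∈ D y, EBN e a β B N d (1 / (8 * ((y : ℝ) + 1)))| ≤
      Real.sqrt B * ∫ w in Set.Ioi z0, w ^ (-(3 / 4) : ℝ) * |S y w| := by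
    intro y hy
    have hyY : (y : ℝ) + 1 ≤ Y := by
      have := Finset.mem_range.mp hy
      exact_mod_cast this
    have hzy : 0 < 1 / (8 * ((y : ℝ) + 1)) := by positivity
    have hzy' : 0 < 1 / (8 * ((y : ℝ) + 1)) / (B : ℝ) ^ 2 := by positivity
    have hzz : z0 ≤ 1 / (8 * ((y : ℝ) + 1)) / (B : ℝ) ^ 2 := by
      rw [hz0]
      refine div_le_div_of_nonneg_right ?_ (by positivity)
      exact one_div_le_one_div_of_le (by positivity) (mul_le_mul_of_nonneg_left hyY (by positivity))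
    rw [fE _ hzy, abs_mul, abs_of_nonneg (Real.sqrt_nonneg _)]
    refine mul_le_mul_of_nonneg_left ?_ (Real.sqrt_nonneg _)
    calc |∫ w in Set.Ioi (1 / (8 * ((y : ℝ) + 1)) / (B : ℝ) ^ 2), w ^ (-(3 / 4) : ℝ) * S y w|
        ≤ ∫ w in Set.Ioi (1 / (8 * ((y : ℝ) + 1)) / (B : ℝ) ^ 2), |w ^ (-(3 / 4) : ℝ) * S y w| :=
          abs_integral_le_integral_abs
      _ = ∫ w in Set.Ioi (1 / (8 * ((y : ℝ) + 1)) / (B : ℝ) ^ 2), w ^ (-(3 / 4) : ℝ) * |S y w| := by
          refine setIntegral_congr_fun measurableSet_Ioi fun w hw => ?_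
          have hw0 : (0 : ℝ) < w := lt_trans hzy' hw
          rw [abs_mul, abs_of_nonneg (Real.rpow_nonneg hw0.le _)]
      _ ≤ ∫ w in Set.Ioi z0, w ^ (-(3 / 4) : ℝ) * |S y w| := by
          refine setIntegral_mono_set (habs y) ?_ (Set.Ioi_subset_Ioi hzz).eventuallyLE
          rw [EventuallyLE, ae_restrict_iff' measurableSet_Ioi]
          refine Eventually.of_forall fun w hw => ?_
          have hw0 : (0 : ℝ) < w := lt_trans hz0p hw
          exact mul_nonneg (Real.rpow_nonneg hw0.le _) (abs_nonneg _)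
  -- step C: the pointwise bound
  set K : ℝ := Real.sqrt Y * (C0 * B * (Real.sqrt C1 * Real.sqrt h) * (3 * Real.sqrt (Real.log Y)))
    with hK
  have hK0 : 0 ≤ K := by positivity
  have hCB : 0 < C0 * B := by positivity
  have hC : ∀ w ∈ Set.Ioi z0, w ^ (-(3 / 4) : ℝ) * ∑ y ∈ range Y, |S y w| ≤
      K * (Real.sqrt Y / q * (w⁻¹ * Real.exp (-(w / 8))) + w ^ (-(3 / 2) : ℝ)) := by
    intro w hw
    have hw0 : (0 : ℝ) < w := lt_trans hz0p hw
    have hk : ∀ n : ℕ, 1 ≤ n → |KB a β B N w n / (C0 * B)| ≤ kap ((n : ℝ) ^ 2 * w) := by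
      intro n hn
      rw [abs_div, abs_of_pos hCB, div_le_iff₀ hCB, mul_comm]
      refine (k0 a ha β hβ B N hB n w hn hw0).trans ?_
      refine mul_le_mul_of_nonneg_right (mul_le_mul_of_nonneg_left hβB hC00.le) ?_
      unfold kap
      positivity
    have h2 := h1 w hw0 _ hk e he c hc8 hco q hq Y h (N * B)
    have h3 : ∑ y ∈ range Y, (S y w) ^ 2 ≤ (C0 * B) ^ 2 * (C1 * h * ((Y : ℝ) / q ^ 2 + 1 / w) *
        w ^ (-(1 / 2) : ℝ) * (1 + Real.log (1 + 1 / w)) * Real.exp (-(w / 4))) := by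
      have e : ∀ y, S y w = (C0 * B) * ∑ d ∈ D y, N1 e (fun n => KB a β B N w n / (C0 * B)) (N * B) d := by
        intro y
        simp only [hS]
        rw [Finset.mul_sum]
        exact Finset.sum_congr rfl fun d _ => N1_smul _ _ _ d hCB.ne'
      simp only [e, mul_pow (C0 * (B : ℝ))]
      rw [← Finset.mul_sum]
      exact mul_le_mul_of_nonneg_left h2 (by positivity)
    -- Cauchy-Schwarz
    have h4 : ∑ y ∈ range Y, |S y w| ≤ Real.sqrt Y * Real.sqrt (∑ y ∈ range Y, (S y w) ^ 2) := by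
      rw [← Real.sqrt_mul hY0.le]
      refine Real.le_sqrt_of_sq_le ?_
      have := sq_sum_le_card_mul_sum_sq (s := range Y) (f := fun y => |S y w|)
      rw [Finset.card_range] at this
      simpa only [sq_abs] using this
    have hlw : 1 + Real.log (1 + 1 / w) ≤ 9 * Real.log Y := by
      have h5 : 1 / w ≤ 8 * Y * (B : ℝ) ^ 2 := by
        have := one_div_lt_one_div_of_lt hz0p hw
        rw [e1] at this
        exact this.le
      have h6 : 1 + 1 / w ≤ 9 * Y * (B : ℝ) ^ 2 := by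
        have : (1 : ℝ) ≤ (B : ℝ) ^ 2 := one_le_pow₀ hB1
        nlinarith
      have h7 := log_nine hY hB hBY (t := 1 + 1 / w) (by positivity) h6
      linarith
    have hlw0 : 0 ≤ Real.log (1 + 1 / w) := Real.log_nonneg (by
      have : 0 < 1 / w := by positivity
      linarith)
    -- the square root
    have h11 : Real.sqrt (∑ y ∈ range Y, (S y w) ^ 2) ≤ C0 * B * (Real.sqrt C1 * Real.sqrt h) *
        (3 * Real.sqrt (Real.log Y)) * ((Real.sqrt Y / q + w ^ (-(1 / 2) : ℝ)) *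
        w ^ (-(1 / 4) : ℝ) * Real.exp (-(w / 8))) := by
      refine Real.sqrt_le_iff.mpr ⟨by positivity, h3.trans ?_⟩
      have q1 : Real.sqrt C1 ^ 2 = C1 := Real.sq_sqrt hC1.le
      have q2 : Real.sqrt h ^ 2 = h := Real.sq_sqrt hh0
      have q3 : Real.sqrt (Real.log Y) ^ 2 = Real.log Y := Real.sq_sqrt (by linarith)
      have q4 : (w ^ (-(1 / 4) : ℝ)) ^ 2 = w ^ (-(1 / 2) : ℝ) := by
        rw [← Real.rpow_natCast, ← Real.rpow_mul hw0.le]
        norm_num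
      have q5 : Real.exp (-(w / 8)) ^ 2 = Real.exp (-(w / 4)) := by
        rw [← Real.exp_nat_mul]
        congr 1
        push_cast
        ring
      have q6 : (w ^ (-(1 / 2) : ℝ)) ^ 2 = 1 / w := by
        rw [← Real.rpow_natCast, ← Real.rpow_mul hw0.le,
          show (-(1 / 2) : ℝ) * ((2 : ℕ) : ℝ) = -1 by norm_num, Real.rpow_neg_one, one_div]
      have q7 : Real.sqrt Y ^ 2 = Y := Real.sq_sqrt hY0.le
      have q8 : (Y : ℝ) / q ^ 2 + 1 / w ≤ (Real.sqrt Y / q + w ^ (-(1 / 2) : ℝ)) ^ 2 := by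
        rw [add_sq, div_pow, q7, q6]
        have : 0 ≤ 2 * (Real.sqrt Y / q) * w ^ (-(1 / 2) : ℝ) := by positivity
        linarith
      calc (C0 * B) ^ 2 * (C1 * h * ((Y : ℝ) / q ^ 2 + 1 / w) * w ^ (-(1 / 2) : ℝ) *
            (1 + Real.log (1 + 1 / w)) * Real.exp (-(w / 4)))
          ≤ (C0 * B) ^ 2 * (C1 * h * (Real.sqrt Y / q + w ^ (-(1 / 2) : ℝ)) ^ 2 * w ^ (-(1 / 2) : ℝ) *
            (9 * Real.log Y) * Real.exp (-(w / 4))) := by
            gcongr
        _ = (C0 * B * (Real.sqrt C1 * Real.sqrt h) * (3 * Real.sqrt (Real.log Y)) *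
            ((Real.sqrt Y / q + w ^ (-(1 / 2) : ℝ)) * w ^ (-(1 / 4) : ℝ) * Real.exp (-(w / 8)))) ^ 2 := by
            simp only [mul_pow]
            rw [q1, q2, q3, q4, q5]
            ring
    have h12 : ∑ y ∈ range Y, |S y w| ≤ K * ((Real.sqrt Y / q + w ^ (-(1 / 2) : ℝ)) *
        w ^ (-(1 / 4) : ℝ) * Real.exp (-(w / 8))) := by
      refine h4.trans ((mul_le_mul_of_nonneg_left h11 (Real.sqrt_nonneg _)).trans (le_of_eq ?_))
      rw [hK]
      ring
    have r1 : w ^ (-(3 / 4) : ℝ) * w ^ (-(1 / 4) : ℝ) = w⁻¹ := by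
      rw [← Real.rpow_add hw0, ← Real.rpow_neg_one]
      norm_num
    have r2 : w ^ (-(1 / 2) : ℝ) * w⁻¹ = w ^ (-(3 / 2) : ℝ) := by
      rw [← Real.rpow_neg_one, ← Real.rpow_add hw0]
      norm_num
    calc w ^ (-(3 / 4) : ℝ) * ∑ y ∈ range Y, |S y w|
        ≤ w ^ (-(3 / 4) : ℝ) * (K * ((Real.sqrt Y / q + w ^ (-(1 / 2) : ℝ)) *
          w ^ (-(1 / 4) : ℝ) * Real.exp (-(w / 8)))) :=
          mul_le_mul_of_nonneg_left h12 (Real.rpow_nonneg hw0.le _)
      _ = K * (Real.sqrt Y / q * ((w ^ (-(3 / 4) : ℝ) * w ^ (-(1 / 4) : ℝ)) * Real.exp (-(w / 8))) +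
          w ^ (-(1 / 2) : ℝ) * (w ^ (-(3 / 4) : ℝ) * w ^ (-(1 / 4) : ℝ)) * Real.exp (-(w / 8))) := by ring
      _ = K * (Real.sqrt Y / q * (w⁻¹ * Real.exp (-(w / 8))) +
          w ^ (-(3 / 2) : ℝ) * Real.exp (-(w / 8))) := by rw [r1, r2]
      _ ≤ K * (Real.sqrt Y / q * (w⁻¹ * Real.exp (-(w / 8))) + w ^ (-(3 / 2) : ℝ)) := by
          refine mul_le_mul_of_nonneg_left (add_le_add le_rfl ?_) hK0
          refine mul_le_of_le_one_right (Real.rpow_nonneg hw0.le _) ?_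
          rw [Real.exp_le_one_iff]
          linarith
  -- step B
  obtain ⟨i1, v1⟩ := int_one hz0p hz01
  obtain ⟨i2, v2⟩ := int_two hz0p
  have hsumI : IntegrableOn (fun w : ℝ => w ^ (-(3 / 4) : ℝ) * ∑ y ∈ range Y, |S y w|) (Set.Ioi z0) := by
    simp only [Finset.mul_sum]
    exact integrable_finsetSum _ fun y _ => habs y
  have hBd : ∑ y ∈ range Y, |∑ d ∈ D y, EBN e a β B N d (1 / (8 * ((y : ℝ) + 1)))| ≤
      Real.sqrt B * (K * (Real.sqrt Y / q * (Real.log (1 / z0) + 8) + 2 * z0 ^ (-(1 / 2) : ℝ))) := by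
    calc ∑ y ∈ range Y, |∑ d ∈ D y, EBN e a β B N d (1 / (8 * ((y : ℝ) + 1)))|
        ≤ ∑ y ∈ range Y, Real.sqrt B * ∫ w in Set.Ioi z0, w ^ (-(3 / 4) : ℝ) * |S y w| :=
          Finset.sum_le_sum hA
      _ = Real.sqrt B * ∫ w in Set.Ioi z0, w ^ (-(3 / 4) : ℝ) * ∑ y ∈ range Y, |S y w| := by
          rw [← Finset.mul_sum, ← integral_finsetSum _ fun y _ => habs y]
          simp only [Finset.mul_sum]
      _ ≤ Real.sqrt B * ∫ w in Set.Ioi z0,
            K * (Real.sqrt Y / q * (w⁻¹ * Real.exp (-(w / 8))) + w ^ (-(3 / 2) : ℝ)) :=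
          mul_le_mul_of_nonneg_left (setIntegral_mono_on hsumI
            (((i1.const_mul _).add i2).const_mul K) measurableSet_Ioi hC) (Real.sqrt_nonneg _)
      _ = Real.sqrt B * (K * (Real.sqrt Y / q * (∫ w in Set.Ioi z0, w⁻¹ * Real.exp (-(w / 8))) +
          ∫ w in Set.Ioi z0, w ^ (-(3 / 2) : ℝ))) := by
          rw [integral_const_mul, integral_add (i1.const_mul _) i2, integral_const_mul]
      _ ≤ Real.sqrt B * (K * (Real.sqrt Y / q * (Real.log (1 / z0) + 8) +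
            2 * z0 ^ (-(1 / 2) : ℝ))) := by
          rw [v2]
          gcongr
  refine hBd.trans ?_
  have e2 : Real.log (1 / z0) + 8 ≤ 13 * Real.log Y := by
    rw [e1]
    have := log_nine hY hB hBY (t := 8 * Y * (B : ℝ) ^ 2) (by positivity) (by
      have : 0 ≤ (Y : ℝ) * (B : ℝ) ^ 2 := by positivity
      nlinarith)
    linarith
  have e3 : z0 ^ (-(1 / 2) : ℝ) ≤ 3 * (B * Real.sqrt Y) := by
    rw [Real.rpow_neg hz0p.le, ← Real.inv_rpow hz0p.le, ← one_div, e1, ← Real.sqrt_eq_rpow]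
    have : (3 : ℝ) * (B * Real.sqrt Y) = Real.sqrt (9 * Y * (B : ℝ) ^ 2) := by
      rw [Real.sqrt_mul (by positivity), Real.sqrt_mul (by norm_num),
        show (9 : ℝ) = 3 ^ 2 by norm_num, Real.sqrt_sq (by norm_num), Real.sqrt_sq hB0.le]
      ring
    rw [this]
    refine Real.sqrt_le_sqrt ?_
    have : 0 ≤ (Y : ℝ) * (B : ℝ) ^ 2 := by positivity
    nlinarith
  have hsY : Real.sqrt Y * Real.sqrt Y = Y := Real.mul_self_sqrt hY0.le
  have hsB : Real.sqrt B ≤ B := by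
    rw [Real.sqrt_le_left hB0.le]
    nlinarith
  have hsl : Real.sqrt (Real.log Y) ≤ Real.log Y := by
    rw [Real.sqrt_le_left (by linarith)]
    nlinarith
  have hq2 : Real.sqrt Y / q ≤ Real.sqrt Y := div_le_self (Real.sqrt_nonneg _) hq1'
  calc Real.sqrt B * (K * (Real.sqrt Y / q * (Real.log (1 / z0) + 8) + 2 * z0 ^ (-(1 / 2) : ℝ)))
      ≤ Real.sqrt B * (K * (Real.sqrt Y * (13 * Real.log Y) + 2 * (3 * (B * Real.sqrt Y)))) := by
        have : 0 ≤ Real.log (1 / z0) + 8 := by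
          have : 0 ≤ Real.log (1 / z0) := Real.log_nonneg (one_le_one_div hz0p hz01)
          linarith
        gcongr
    _ ≤ Real.sqrt B * (K * (Real.sqrt Y * (19 * (B * Real.log Y)))) := by
        refine mul_le_mul_of_nonneg_left (mul_le_mul_of_nonneg_left ?_ hK0) (Real.sqrt_nonneg _)
        have g1 := Real.sqrt_nonneg (Y : ℝ)
        have g2 : 13 * Real.log Y + 6 * B ≤ 19 * (B * Real.log Y) := by nlinarith
        calc Real.sqrt Y * (13 * Real.log Y) + 2 * (3 * (B * Real.sqrt Y)) =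
            Real.sqrt Y * (13 * Real.log Y + 6 * B) := by ring
          _ ≤ _ := mul_le_mul_of_nonneg_left g2 g1
    _ = C0 * Real.sqrt C1 * 3 * 19 * (Real.sqrt B * B ^ 2 * Real.sqrt h *
          (Real.sqrt Y * Real.sqrt Y) * (Real.sqrt (Real.log Y) * Real.log Y)) := by
        rw [hK]
        ring
    _ ≤ C0 * Real.sqrt C1 * 3 * 19 * ((B : ℝ) * B * B ^ 2 * Real.sqrt h * Y *
          (Real.log Y * Real.log Y)) := by
        rw [hsY]
        have : Real.sqrt B ≤ (B : ℝ) * B := hsB.trans (by nlinarith)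
        gcongr
    _ = _ := by ring

theorem t_J1B (kbi : S_KBI) : S_J1B := J1B_aux Pool.Agent.Q122.FM.ls1 kbi

end

end Pool.Agent.Q40.MB
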