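import Pool.Agent.Q40.MB.J1B

set_option autoImplicit false

/-! Project MB (helper122), job J2B (helper40), after job J2 of project FM (helper153). -/

namespace Pool.Agent.Q40.MB

open Finset Filter Topology MeasureTheory Pool.Agent.H306R2.RZ Pool.Agent.H306R2.RG
open Pool.Agent.Q122.FM Pool.Agent.Q122.MB Pool.Agent.Q153.FM

noncomputable section

theorem J2B_aux (ls1 : S_LS1) (ra : S_RA) (kbi : S_KBI) : S_J2B := by
  obtain ⟨C1, hC1, h1⟩ := ls1
  obtain ⟨⟨C0, hC0, k0⟩, k1⟩ := kbi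
  have hC00 : 0 < C0 := by linarith
  refine ⟨Real.sqrt 32 * C0 * Real.sqrt C1 * 3 * 26, by positivity,
    fun a ha e he β hβ B hB hβB c hc8 hco A Y h N hA1 hY hh hhY hBY => ?_⟩
  have hY3 : (3 : ℝ) ≤ Y := by exact_mod_cast hY
  have hY0 : (0 : ℝ) < Y := by linarith
  have hA0 : (0 : ℝ) < A := by exact_mod_cast hA1
  have hh0 : (0 : ℝ) ≤ h := Nat.cast_nonneg h
  have hB1 : (1 : ℝ) ≤ B := by exact_mod_cast hB
  have hB0 : (0 : ℝ) < B := by linarith
  have hlog3 : 1 ≤ Real.log Y := log_ge_one hY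
  set D2 : Finset ℕ := (Icc 1 (2 * Y)).filter (fun d => d % 8 = c) with hD2
  set z0 : ℝ := 1 / (8 * Y) / (B : ℝ) ^ 2 with hz0
  have hz0p : 0 < z0 := by positivity
  have e1 : 1 / z0 = 8 * Y * (B : ℝ) ^ 2 := by
    rw [hz0]
    field_simp
  have hz01 : z0 ≤ 1 := by
    rw [← one_div_one_div z0, e1]
    refine (div_le_one (by positivity)).2 ?_
    have : (1 : ℝ) ≤ (B : ℝ) ^ 2 := one_le_pow₀ hB1
    nlinarith
  have habs : ∀ d, IntegrableOn (fun w : ℝ => w ^ (-(3 / 4) : ℝ) *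
      |N1 e (KB a β B N w) (N * B) d|) (Set.Ioi z0) := by
    intro d
    refine (k1 a ha e β B N d (1 / (8 * Y)) hB (by positivity)).1.abs.congr ?_
    rw [EventuallyEq, ae_restrict_iff' measurableSet_Ioi]
    refine Eventually.of_forall fun w hw => ?_
    have hw0 : (0 : ℝ) < w := lt_trans hz0p hw
    rw [abs_mul, abs_of_nonneg (Real.rpow_nonneg hw0.le _)]
  set G : ℕ → ℝ := fun d => Real.sqrt B * ∫ w in Set.Ioi z0, w ^ (-(3 / 4) : ℝ) *
    |N1 e (KB a β B N w) (N * B) d| with hG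
  -- step A
  have hA : ∀ y ∈ range Y, ∀ d, |EBN e a β B N d (1 / (8 * ((y : ℝ) + 1)))| ≤ G d := by
    intro y hy d
    have hyY : (y : ℝ) + 1 ≤ Y := by
      have := Finset.mem_range.mp hy
      exact_mod_cast this
    have hzy : 0 < 1 / (8 * ((y : ℝ) + 1)) := by positivity
    have hzy' : 0 < 1 / (8 * ((y : ℝ) + 1)) / (B : ℝ) ^ 2 := by positivity
    have hzz : z0 ≤ 1 / (8 * ((y : ℝ) + 1)) / (B : ℝ) ^ 2 := by
      rw [hz0]
      refine div_le_div_of_nonneg_right ?_ (by positivity)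
      exact one_div_le_one_div_of_le (by positivity) (mul_le_mul_of_nonneg_left hyY (by positivity))
    rw [(k1 a ha e β B N d _ hB hzy).2, abs_mul, abs_of_nonneg (Real.sqrt_nonneg _)]
    refine mul_le_mul_of_nonneg_left ?_ (Real.sqrt_nonneg _)
    calc |∫ w in Set.Ioi (1 / (8 * ((y : ℝ) + 1)) / (B : ℝ) ^ 2), w ^ (-(3 / 4) : ℝ) *
          N1 e (KB a β B N w) (N * B) d|
        ≤ ∫ w in Set.Ioi (1 / (8 * ((y : ℝ) + 1)) / (B : ℝ) ^ 2), |w ^ (-(3 / 4) : ℝ) *
          N1 e (KB a β B N w) (N * B) d| := abs_integral_le_integral_abs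
      _ = ∫ w in Set.Ioi (1 / (8 * ((y : ℝ) + 1)) / (B : ℝ) ^ 2), w ^ (-(3 / 4) : ℝ) *
          |N1 e (KB a β B N w) (N * B) d| := by
          refine setIntegral_congr_fun measurableSet_Ioi fun w hw => ?_
          have hw0 : (0 : ℝ) < w := lt_trans hzy' hw
          rw [abs_mul, abs_of_nonneg (Real.rpow_nonneg hw0.le _)]
      _ ≤ ∫ w in Set.Ioi z0, w ^ (-(3 / 4) : ℝ) * |N1 e (KB a β B N w) (N * B) d| := by
          refine setIntegral_mono_set (habs d) ?_ (Set.Ioi_subset_Ioi hzz).eventuallyLE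
          rw [EventuallyLE, ae_restrict_iff' measurableSet_Ioi]
          refine Eventually.of_forall fun w hw => ?_
          have hw0 : (0 : ℝ) < w := lt_trans hz0p hw
          exact mul_nonneg (Real.rpow_nonneg hw0.le _) (abs_nonneg _)
  have hG0 : ∀ d, 0 ≤ G d := fun d => mul_nonneg (Real.sqrt_nonneg _)
    (setIntegral_nonneg measurableSet_Ioi fun w hw =>
      mul_nonneg (Real.rpow_nonneg (lt_trans hz0p hw).le _) (abs_nonneg _))
  have hW : ∑ y ∈ range Y, ∑ d ∈ (Ioc y (y + h)).filter (fun d => d % 8 = c),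
      |RA A d| * |EBN e a β B N d (1 / (8 * ((y : ℝ) + 1)))| ≤
        h * ∑ d ∈ D2, |RA A d| * G d := by
    refine le_trans (Finset.sum_le_sum fun y hy => Finset.sum_le_sum fun d _ =>
      mul_le_mul_of_nonneg_left (hA y hy d) (abs_nonneg _)) ?_
    exact windows_le (fun d => |RA A d| * G d)
      (fun d => mul_nonneg (abs_nonneg _) (hG0 d)) c Y h hhY
  -- step C: the pointwise bound
  set K : ℝ := Real.sqrt (32 * Y / A) * (C0 * B * Real.sqrt C1 * (3 * Real.sqrt (Real.log Y)))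
    with hK
  have hK0 : 0 ≤ K := by positivity
  have hCB : 0 < C0 * B := by positivity
  have hRA : ∑ d ∈ D2, RA A d ^ 2 ≤ 32 * Y / A := by
    refine le_trans (Finset.sum_le_sum_of_subset_of_nonneg (Finset.filter_subset _ _)
      fun d _ _ => sq_nonneg _) ((ra A (2 * Y) hA1).trans (le_of_eq ?_))
    push_cast
    ring
  have hC : ∀ w ∈ Set.Ioi z0, w ^ (-(3 / 4) : ℝ) * ∑ d ∈ D2, |RA A d| *
      |N1 e (KB a β B N w) (N * B) d| ≤
      K * (Real.sqrt (2 * Y) * (w⁻¹ * Real.exp (-(w / 8))) + w ^ (-(3 / 2) : ℝ)) := by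
    intro w hw
    have hw0 : (0 : ℝ) < w := lt_trans hz0p hw
    have hk : ∀ n : ℕ, 1 ≤ n → |KB a β B N w n / (C0 * B)| ≤ kap ((n : ℝ) ^ 2 * w) := by
      intro n hn
      rw [abs_div, abs_of_pos hCB, div_le_iff₀ hCB, mul_comm]
      refine (k0 a ha β hβ B N hB n w hn hw0).trans ?_
      refine mul_le_mul_of_nonneg_right (mul_le_mul_of_nonneg_left hβB hC00.le) ?_
      unfold kap
      positivity
    have h2 := h1 w hw0 _ hk e he c hc8 hco 1 odd_one (2 * Y) 1 (N * B)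
    rw [win_one] at h2
    have h3 : ∑ d ∈ D2, N1 e (KB a β B N w) (N * B) d ^ 2 ≤ (C0 * B) ^ 2 *
        (C1 * ((2 * Y : ℝ) + 1 / w) *
        w ^ (-(1 / 2) : ℝ) * (1 + Real.log (1 + 1 / w)) * Real.exp (-(w / 4))) := by
      have e : ∀ d, N1 e (KB a β B N w) (N * B) d ^ 2 =
          (C0 * B) ^ 2 * N1 e (fun n => KB a β B N w n / (C0 * B)) (N * B) d ^ 2 := by
        intro d
        rw [N1_smul _ _ _ d hCB.ne', mul_pow (C0 * (B : ℝ))]
      simp only [e]
      rw [← Finset.mul_sum]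
      refine mul_le_mul_of_nonneg_left (h2.trans (le_of_eq ?_)) (by positivity)
      push_cast
      ring
    -- Cauchy-Schwarz
    have h4 : ∑ d ∈ D2, |RA A d| * |N1 e (KB a β B N w) (N * B) d| ≤
        Real.sqrt (32 * Y / A) *
        Real.sqrt (∑ d ∈ D2, N1 e (KB a β B N w) (N * B) d ^ 2) := by
      have := Real.sum_mul_le_sqrt_mul_sqrt D2 (fun d => |RA A d|)
        (fun d => |N1 e (KB a β B N w) (N * B) d|)
      simp only [sq_abs] at this
      exact this.trans (mul_le_mul_of_nonneg_right (Real.sqrt_le_sqrt hRA) (Real.sqrt_nonneg _))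
    have hlw : 1 + Real.log (1 + 1 / w) ≤ 9 * Real.log Y := by
      have h5 : 1 / w ≤ 8 * Y * (B : ℝ) ^ 2 := by
        have := one_div_lt_one_div_of_lt hz0p hw
        rw [e1] at this
        exact this.le
      have h6 : 1 + 1 / w ≤ 9 * Y * (B : ℝ) ^ 2 := by
        have : (1 : ℝ) ≤ (B : ℝ) ^ 2 := one_le_pow₀ hB1
        nlinarith
      have h7 := log_nine hY hB hBY (t := 1 + 1 / w) (by positivity) h6
      linarith
    have hlw0 : 0 ≤ Real.log (1 + 1 / w) := Real.log_nonneg (by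
      have : 0 < 1 / w := by positivity
      linarith)
    -- the square root
    have h11 : Real.sqrt (∑ d ∈ D2, N1 e (KB a β B N w) (N * B) d ^ 2) ≤ C0 * B * Real.sqrt C1 *
        (3 * Real.sqrt (Real.log Y)) * ((Real.sqrt (2 * Y) + w ^ (-(1 / 2) : ℝ)) *
        w ^ (-(1 / 4) : ℝ) * Real.exp (-(w / 8))) := by
      refine Real.sqrt_le_iff.mpr ⟨by positivity, h3.trans ?_⟩
      have q1 : Real.sqrt C1 ^ 2 = C1 := Real.sq_sqrt hC1.le
      have q3 : Real.sqrt (Real.log Y) ^ 2 = Real.log Y := Real.sq_sqrt (by linarith)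
      have q4 : (w ^ (-(1 / 4) : ℝ)) ^ 2 = w ^ (-(1 / 2) : ℝ) := by
        rw [← Real.rpow_natCast, ← Real.rpow_mul hw0.le]
        norm_num
      have q5 : Real.exp (-(w / 8)) ^ 2 = Real.exp (-(w / 4)) := by
        rw [← Real.exp_nat_mul]
        congr 1
        push_cast
        ring
      have q6 : (w ^ (-(1 / 2) : ℝ)) ^ 2 = 1 / w := by
        rw [← Real.rpow_natCast, ← Real.rpow_mul hw0.le,
          show (-(1 / 2) : ℝ) * ((2 : ℕ) : ℝ) = -1 by norm_num, Real.rpow_neg_one, one_div]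
      have q7 : Real.sqrt (2 * Y) ^ 2 = 2 * Y := Real.sq_sqrt (by positivity)
      have q8 : (2 * Y : ℝ) + 1 / w ≤ (Real.sqrt (2 * Y) + w ^ (-(1 / 2) : ℝ)) ^ 2 := by
        rw [add_sq, q7, q6]
        have : 0 ≤ 2 * (Real.sqrt (2 * Y)) * w ^ (-(1 / 2) : ℝ) := by positivity
        linarith
      calc (C0 * B) ^ 2 * (C1 * ((2 * Y : ℝ) + 1 / w) * w ^ (-(1 / 2) : ℝ) *
            (1 + Real.log (1 + 1 / w)) * Real.exp (-(w / 4)))
          ≤ (C0 * B) ^ 2 * (C1 * (Real.sqrt (2 * Y) + w ^ (-(1 / 2) : ℝ)) ^ 2 *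
            w ^ (-(1 / 2) : ℝ) * (9 * Real.log Y) * Real.exp (-(w / 4))) := by
            gcongr
        _ = (C0 * B * Real.sqrt C1 * (3 * Real.sqrt (Real.log Y)) *
            ((Real.sqrt (2 * Y) + w ^ (-(1 / 2) : ℝ)) * w ^ (-(1 / 4) : ℝ) *
              Real.exp (-(w / 8)))) ^ 2 := by
            simp only [mul_pow]
            rw [q1, q3, q4, q5]
            ring
    have h12 : ∑ d ∈ D2, |RA A d| * |N1 e (KB a β B N w) (N * B) d| ≤
        K * ((Real.sqrt (2 * Y) + w ^ (-(1 / 2) : ℝ)) *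
        w ^ (-(1 / 4) : ℝ) * Real.exp (-(w / 8))) := by
      refine h4.trans ((mul_le_mul_of_nonneg_left h11 (Real.sqrt_nonneg _)).trans (le_of_eq ?_))
      rw [hK]
      ring
    have r1 : w ^ (-(3 / 4) : ℝ) * w ^ (-(1 / 4) : ℝ) = w⁻¹ := by
      rw [← Real.rpow_add hw0, ← Real.rpow_neg_one]
      norm_num
    have r2 : w ^ (-(1 / 2) : ℝ) * w⁻¹ = w ^ (-(3 / 2) : ℝ) := by
      rw [← Real.rpow_neg_one, ← Real.rpow_add hw0]
      norm_num
    calc w ^ (-(3 / 4) : ℝ) * ∑ d ∈ D2, |RA A d| * |N1 e (KB a β B N w) (N * B) d|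
        ≤ w ^ (-(3 / 4) : ℝ) * (K * ((Real.sqrt (2 * Y) + w ^ (-(1 / 2) : ℝ)) *
          w ^ (-(1 / 4) : ℝ) * Real.exp (-(w / 8)))) :=
          mul_le_mul_of_nonneg_left h12 (Real.rpow_nonneg hw0.le _)
      _ = K * (Real.sqrt (2 * Y) * ((w ^ (-(3 / 4) : ℝ) * w ^ (-(1 / 4) : ℝ)) *
          Real.exp (-(w / 8))) +
          w ^ (-(1 / 2) : ℝ) * (w ^ (-(3 / 4) : ℝ) * w ^ (-(1 / 4) : ℝ)) * Real.exp (-(w / 8))) := by ring
      _ = K * (Real.sqrt (2 * Y) * (w⁻¹ * Real.exp (-(w / 8))) +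
          w ^ (-(3 / 2) : ℝ) * Real.exp (-(w / 8))) := by rw [r1, r2]
      _ ≤ K * (Real.sqrt (2 * Y) * (w⁻¹ * Real.exp (-(w / 8))) + w ^ (-(3 / 2) : ℝ)) := by
          refine mul_le_mul_of_nonneg_left (add_le_add le_rfl ?_) hK0
          refine mul_le_of_le_one_right (Real.rpow_nonneg hw0.le _) ?_
          rw [Real.exp_le_one_iff]
          linarith
  -- step B
  obtain ⟨i1, v1⟩ := int_one hz0p hz01
  obtain ⟨i2, v2⟩ := int_two hz0p
  have habs2 : ∀ d, IntegrableOn (fun w : ℝ => w ^ (-(3 / 4) : ℝ) *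
      (|RA A d| * |N1 e (KB a β B N w) (N * B) d|)) (Set.Ioi z0) := by
    intro d
    refine ((habs d).const_mul |RA A d|).congr (Eventually.of_forall fun w => ?_)
    ring
  have hsumI : IntegrableOn (fun w : ℝ => w ^ (-(3 / 4) : ℝ) *
      ∑ d ∈ D2, |RA A d| * |N1 e (KB a β B N w) (N * B) d|) (Set.Ioi z0) := by
    simp only [Finset.mul_sum]
    exact integrable_finsetSum _ fun d _ => habs2 d
  have hBd : ∑ d ∈ D2, |RA A d| * G d ≤
      Real.sqrt B * (K * (Real.sqrt (2 * Y) * (Real.log (1 / z0) + 8) +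
        2 * z0 ^ (-(1 / 2) : ℝ))) := by
    calc ∑ d ∈ D2, |RA A d| * G d
        = ∑ d ∈ D2, Real.sqrt B * ∫ w in Set.Ioi z0, w ^ (-(3 / 4) : ℝ) *
          (|RA A d| * |N1 e (KB a β B N w) (N * B) d|) := by
          refine Finset.sum_congr rfl fun d _ => ?_
          simp only [hG]
          rw [mul_left_comm, ← integral_const_mul]
          congr 1
          refine integral_congr_ae (Eventually.of_forall fun w => ?_)
          ring
      _ = Real.sqrt B * ∫ w in Set.Ioi z0, w ^ (-(3 / 4) : ℝ) *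
          ∑ d ∈ D2, |RA A d| * |N1 e (KB a β B N w) (N * B) d| := by
          rw [← Finset.mul_sum, ← integral_finsetSum _ fun d _ => habs2 d]
          simp only [Finset.mul_sum]
      _ ≤ Real.sqrt B * ∫ w in Set.Ioi z0, K * (Real.sqrt (2 * Y) *
          (w⁻¹ * Real.exp (-(w / 8))) + w ^ (-(3 / 2) : ℝ)) :=
          mul_le_mul_of_nonneg_left (setIntegral_mono_on hsumI
            (((i1.const_mul _).add i2).const_mul K) measurableSet_Ioi hC) (Real.sqrt_nonneg _)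
      _ = Real.sqrt B * (K * (Real.sqrt (2 * Y) * (∫ w in Set.Ioi z0, w⁻¹ * Real.exp (-(w / 8))) +
          ∫ w in Set.Ioi z0, w ^ (-(3 / 2) : ℝ))) := by
          rw [integral_const_mul, integral_add (i1.const_mul _) i2, integral_const_mul]
      _ ≤ Real.sqrt B * (K * (Real.sqrt (2 * Y) * (Real.log (1 / z0) + 8) +
            2 * z0 ^ (-(1 / 2) : ℝ))) := by
          rw [v2]
          gcongr
  have e2 : Real.log (1 / z0) + 8 ≤ 13 * Real.log Y := by
    rw [e1]
    have := log_nine hY hB hBY (t := 8 * Y * (B : ℝ) ^ 2) (by positivity) (by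
      have : 0 ≤ (Y : ℝ) * (B : ℝ) ^ 2 := by positivity
      nlinarith)
    linarith
  have e3 : z0 ^ (-(1 / 2) : ℝ) ≤ 3 * (B * Real.sqrt Y) := by
    rw [Real.rpow_neg hz0p.le, ← Real.inv_rpow hz0p.le, ← one_div, e1, ← Real.sqrt_eq_rpow]
    have : (3 : ℝ) * (B * Real.sqrt Y) = Real.sqrt (9 * Y * (B : ℝ) ^ 2) := by
      rw [Real.sqrt_mul (by positivity), Real.sqrt_mul (by norm_num),
        show (9 : ℝ) = 3 ^ 2 by norm_num, Real.sqrt_sq (by norm_num), Real.sqrt_sq hB0.le]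
      ring
    rw [this]
    refine Real.sqrt_le_sqrt ?_
    have : 0 ≤ (Y : ℝ) * (B : ℝ) ^ 2 := by positivity
    nlinarith
  have hsY : Real.sqrt Y * Real.sqrt Y = Y := Real.mul_self_sqrt hY0.le
  have e4 : Real.sqrt (2 * Y) ≤ 3 / 2 * Real.sqrt Y := by
    rw [Real.sqrt_mul (by norm_num)]
    refine mul_le_mul_of_nonneg_right ?_ (Real.sqrt_nonneg _)
    rw [Real.sqrt_le_left (by norm_num)]
    norm_num
  have e5 : Real.sqrt (32 * Y / A) = Real.sqrt 32 * Real.sqrt Y / Real.sqrt A := by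
    rw [Real.sqrt_div (by positivity), Real.sqrt_mul (by norm_num)]
  have hsA : 0 < Real.sqrt A := Real.sqrt_pos.mpr hA0
  have hsB : Real.sqrt B ≤ B := by
    rw [Real.sqrt_le_left hB0.le]
    nlinarith
  have hsl : Real.sqrt (Real.log Y) ≤ Real.log Y := by
    rw [Real.sqrt_le_left (by linarith)]
    nlinarith
  refine hW.trans ((mul_le_mul_of_nonneg_left hBd hh0).trans ?_)
  calc (h : ℝ) * (Real.sqrt B * (K * (Real.sqrt (2 * Y) * (Real.log (1 / z0) + 8) +
        2 * z0 ^ (-(1 / 2) : ℝ))))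
      ≤ h * (Real.sqrt B * (K * (3 / 2 * Real.sqrt Y * (13 * Real.log Y) +
        2 * (3 * (B * Real.sqrt Y))))) := by
        have : 0 ≤ Real.log (1 / z0) + 8 := by
          have : 0 ≤ Real.log (1 / z0) := Real.log_nonneg (one_le_one_div hz0p hz01)
          linarith
        gcongr
    _ ≤ h * (Real.sqrt B * (K * (Real.sqrt Y * (26 * (B * Real.log Y))))) := by
        refine mul_le_mul_of_nonneg_left (mul_le_mul_of_nonneg_left
          (mul_le_mul_of_nonneg_left ?_ hK0) (Real.sqrt_nonneg _)) hh0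
        have g1 := Real.sqrt_nonneg (Y : ℝ)
        have g2 : 3 / 2 * (13 * Real.log Y) + 6 * B ≤ 26 * (B * Real.log Y) := by nlinarith
        calc 3 / 2 * Real.sqrt Y * (13 * Real.log Y) + 2 * (3 * (B * Real.sqrt Y)) =
            Real.sqrt Y * (3 / 2 * (13 * Real.log Y) + 6 * B) := by ring
          _ ≤ _ := mul_le_mul_of_nonneg_left g2 g1
    _ = Real.sqrt 32 * C0 * Real.sqrt C1 * 3 * 26 * (Real.sqrt B * B ^ 2 * h *
          (Real.sqrt Y * Real.sqrt Y) * (Real.sqrt (Real.log Y) * Real.log Y) / Real.sqrt A) := by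
        rw [hK, e5]
        ring
    _ ≤ Real.sqrt 32 * C0 * Real.sqrt C1 * 3 * 26 * ((B : ℝ) * B * B ^ 2 * h * Y *
          (Real.log Y * Real.log Y) / Real.sqrt A) := by
        rw [hsY]
        have : Real.sqrt B ≤ (B : ℝ) * B := hsB.trans (by nlinarith)
        gcongr
    _ = _ := by ring

theorem t_J2B (kbi : S_KBI) : S_J2B :=
  J2B_aux Pool.Agent.Q122.FM.ls1 Pool.Agent.Q122.FM.ra kbi

end

end Pool.Agent.Q40.MB
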